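import Pool.Agent.Helper48.Knotted.Inst

/-!
# Knotted varieties whose l-bimonoidal subreducts form a variety

For m, n at least 1, let V(m,n) be the variety of involutive commutative residuated lattices
axiomatized by `x ^ m ≤ x ^ n`. If the class of l-bimonoidal subreducts of V(m,n) is closed under
homomorphic images (in particular if it is a variety), then `m = 1` or `m = n`, and hence V(m,n) is
axiomatized by an inequality of the form `x ≤ x ^ k`.
-/

namespace Pool.Agent.Results.MP_2e5387_al.KnottedSubreducts

open Pool.Agent.Helper48.Knotted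

universe u

theorem result (m n : ℕ) (hm : 1 ≤ m) (hn : 1 ≤ n) (h : ClosedUnderH.{u} m n) :
    (m = 1 ∨ m = n) ∧
      ∃ k, 1 ≤ k ∧ ∀ (L : Type u) [InCRL L], (∀ x : L, x ^ m ≤ x ^ n) ↔ ∀ x : L, x ≤ x ^ k := by
  have h1 : m = 1 ∨ m = n := by
    by_contra hcon
    push Not at hcon
    rcases lt_or_gt_of_ne hcon.2 with h2 | h2
    · exact not_closed_of_gt (by omega) h2 h
    · exact not_closed_of_lt hn h2 h
  refine ⟨h1, ?_⟩
  rcases h1 with rfl | rfl
  · refine ⟨n, hn, fun L _ => ?_⟩
    simp only [pow_one]
  · refine ⟨1, le_rfl, fun L _ => ?_⟩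
    simp only [pow_one, le_refl]

end Pool.Agent.Results.MP_2e5387_al.KnottedSubreducts
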